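import Mathlib

namespace Pool.Agent.Results.MP_d24a2a_lc.Stable

open Finset

/-- A ground normal rule `head ← pos, not neg`. -/
structure Rule (A : Type) where
  head : A
  pos : Finset A
  neg : Finset A

variable {A : Type}

/-- Every atom is the head of at most one rule. -/
def UniRule (P : Set (Rule A)) : Prop := ∀ r ∈ P, ∀ r' ∈ P, r.head = r'.head → r = r'

/-- `M` is the least model of the Gelfond-Lifschitz reduct of `P` by `M`. -/
def IsStable (P : Set (Rule A)) (M : Set A) : Prop :=
  IsLeast {L : Set A | ∀ r ∈ P, Disjoint (r.neg : Set A) M → (r.pos : Set A) ⊆ L → r.head ∈ L} M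

/-- Signed arcs of the atom dependency graph: `s = false` positive, `s = true` negative. -/
def Arc (P : Set (Rule A)) (u v : A) (s : Bool) : Prop :=
  ∃ r ∈ P, r.head = v ∧ u ∈ (if s then r.neg else r.pos)

/-- `c 0, …, c (k-1)` with signs `s 0, …, s (k-1)` is an elementary cycle of length `k` for the
signed arc relation `E`; its arcs are `(c i, c ((i+1) % k), s i)`. -/
def IsCycle (E : A → A → Bool → Prop) (k : ℕ) (c : ℕ → A) (s : ℕ → Bool) : Prop :=
  0 < k ∧ (∀ i < k, ∀ j < k, c i = c j → i = j) ∧ ∀ i < k, E (c i) (c ((i + 1) % k)) (s i)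

/-- The cycle has an odd number of negative arcs. -/
def IsOdd (k : ℕ) (s : ℕ → Bool) : Prop := Odd ((range k).filter (fun i => s i = true)).card

/-- An internal delocalizing triple `(c i, c j, c l)`: a positive arc `c i → c j` and a negative
arc `c i → c l`, with `c j ≠ c l`, neither of them an arc of the cycle. -/
def HasTriple (E : A → A → Bool → Prop) (k : ℕ) (c : ℕ → A) (s : ℕ → Bool) : Prop :=
  ∃ i < k, ∃ j < k, ∃ l < k, c j ≠ c l ∧ E (c i) (c j) false ∧ E (c i) (c l) true ∧
    (¬ ∃ m < k, c m = c i ∧ c ((m + 1) % k) = c j ∧ s m = false) ∧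
    (¬ ∃ m < k, c m = c i ∧ c ((m + 1) % k) = c l ∧ s m = true)

section net
variable (E : A → A → Bool → Prop)

def F (v : A) (x : A → Bool) : Prop := ∀ u s, E u v s → x u = !s

def Lev (R : Finset A) (w : A) (x : A → Bool) : ℕ → Set A
  | 0 => {w}
  | n + 1 => Lev R w x n ∪ {v | v ∈ R ∧ ((x v = true ∧ ∃ u s, E u v s ∧ u ∈ Lev R w x n) ∨
      (x v = false ∧ ∀ u, E u v (x u) → u ∈ Lev R w x n))}

lemma lev_mono (R : Finset A) (w : A) (x : A → Bool) : Monotone (Lev E R w x) :=
  monotone_nat_of_le_succ fun _ => Set.subset_union_left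

lemma par (y : ℕ → Bool) (k : ℕ) :
    (((range k).filter (fun i => xor (y i) (y (i + 1)) = true)).card % 2 = 1) ↔
      xor (y 0) (y k) = true := by
  induction k with
  | zero => simp
  | succ k ih =>
    rw [range_add_one, filter_insert]
    split_ifs with h
    · rw [card_insert_of_notMem (by simp)]
      have : (xor (y 0) (y (k + 1)) = true) ↔ ¬ (xor (y 0) (y k) = true) := by
        revert h; cases y 0 <;> cases y k <;> cases y (k + 1) <;> simp
      rw [this, ← ih]; omega
    · rw [ih]
      revert h; cases y 0 <;> cases y k <;> cases y (k + 1) <;> simp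

lemma no_back (R : Finset A) (w : A) (hw : w ∈ R) (x : A → Bool) (hx0 : x w = false)
    (hFw : F E w x) (hfix : ∀ v ∈ R, v ≠ w → (x v = true ↔ F E v x))
    (hC : ∀ k c s, IsCycle E k c s → IsOdd k s → (∀ i < k, c i ∈ R) → HasTriple E k c s)
    (t : A) (st : Bool) (ht : E t w st) (n0 : ℕ) : t ∉ Lev E R w x n0 := by
  classical
  intro htB
  let Bad : A → Prop := fun v => ∃ n, v ∈ Lev E R w x n
  let rk : A → ℕ := fun v => if h : Bad v then Nat.find h else 0
  have rk1 : ∀ v, Bad v → v ∈ Lev E R w x (rk v) := by
    intro v h; simp only [rk, dif_pos h]; exact Nat.find_spec h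
  have rk2 : ∀ v n, v ∈ Lev E R w x n → rk v ≤ n := by
    intro v n h
    have hb : Bad v := ⟨n, h⟩
    simp only [rk, dif_pos hb]; exact Nat.find_min' hb h
  have inR : ∀ n v, v ∈ Lev E R w x n → v ∈ R := by
    intro n
    induction n with
    | zero => rintro v rfl; exact hw
    | succ n ih => rintro v (h | h); exacts [ih v h, h.1]
  have rk3 : ∀ v, Bad v → v ≠ w → ∃ n, rk v = n + 1 ∧
      ((x v = true ∧ ∃ u s, E u v s ∧ u ∈ Lev E R w x n) ∨
      (x v = false ∧ ∀ u, E u v (x u) → u ∈ Lev E R w x n)) := by
    intro v h hv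
    have h1 := rk1 v h
    rcases e : rk v with _ | n
    · rw [e] at h1; exact absurd h1 hv
    · rw [e] at h1
      rcases h1 with h1 | h1
      · have := rk2 v n h1; omega
      · exact ⟨n, rfl, h1.2⟩
  let St : A → A → Prop := fun u v => Bad v ∧ E u v (xor (x u) (x v)) ∧ rk u < rk v
  have viol : ∀ u v, Bad v → v ≠ w → x v = false → E u v (x u) → St u v := by
    intro u v hb hv h0 he
    obtain ⟨n, e, h | h⟩ := rk3 v hb hv
    · rw [h0] at h; simp at h
    · exact ⟨hb, by simpa [h0] using he, by have := rk2 u n (h.2 u he); omega⟩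
  let Pa : ℕ → A → Prop := fun k v => ∃ p : ℕ → A, p 0 = w ∧ p k = v ∧ ∀ i < k, St (p i) (p (i + 1))
  have reach : ∀ m v, Bad v → rk v = m → ∃ k, Pa k v := by
    intro m
    induction m using Nat.strong_induction_on with
    | _ m ih =>
      intro v hb hm
      by_cases hv : v = w
      · exact ⟨0, fun _ => w, rfl, hv.symm, by simp⟩
      have hvR := inR _ v (rk1 v hb)
      obtain ⟨u, hu, hs⟩ : ∃ u, Bad u ∧ St u v := by
        obtain ⟨n, e, h | h⟩ := rk3 v hb hv
        · obtain ⟨h1, u, s, h2, h3⟩ := h
          have := (hfix v hvR hv).1 h1 u s h2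
          refine ⟨u, ⟨n, h3⟩, hb, ?_, by have := rk2 u n h3; omega⟩
          rw [this, h1]; simpa using h2
        · have h2 : ¬ F E v x := fun h' => by
            have := (hfix v hvR hv).2 h'
            rw [h.1] at this; simp at this
          unfold F at h2
          push Not at h2
          obtain ⟨u, s, h3, h4⟩ := h2
          have : s = x u := by revert h4; cases s <;> cases x u <;> simp
          subst this
          exact ⟨u, ⟨n, h.2 u h3⟩, viol u v hb hv h.1 h3⟩
      obtain ⟨k, p, p0, pk, ps⟩ := ih (rk u) (hm ▸ hs.2.2) u hu rfl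
      refine ⟨k + 1, fun i => if i ≤ k then p i else v, by simp [p0], by simp, fun i hi => ?_⟩
      by_cases e : i < k
      · simp only [e.le, if_true, show i + 1 ≤ k from e]; exact ps i e
      · have : i = k := by omega
        subst this
        simp only [le_refl, if_true, show ¬ (i + 1 ≤ i) by omega, if_false, pk]; exact hs
  have hex := reach _ t ⟨n0, htB⟩ rfl
  obtain ⟨p, p0, pk, ps⟩ := Nat.find_spec hex
  have hmin := fun m => Nat.find_min hex (m := m)
  generalize Nat.find hex = k at *
  have pb : ∀ i ≤ k, Bad (p i) := by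
    intro i hi
    rcases i with _ | i
    · exact ⟨0, p0⟩
    · exact (ps i hi).1
  have pm : ∀ j ≤ k, ∀ i < j, rk (p i) < rk (p j) := by
    intro j
    induction j with
    | zero => simp
    | succ j ih =>
      intro hj i hi
      have := (ps j hj).2.2
      rcases Nat.lt_succ_iff_lt_or_eq.1 hi with h | rfl
      · exact (ih (by omega) i h).trans this
      · exact this
  have hst : x t = !st := hFw t st ht
  let s : ℕ → Bool := fun i => if i < k then xor (x (p i)) (x (p (i + 1))) else st
  have hcyc : IsCycle E (k + 1) p s := by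
    refine ⟨by omega, fun i hi j hj e => ?_, fun i hi => ?_⟩
    · rcases lt_trichotomy i j with h | h | h
      · have := pm j (by omega) i h; rw [e] at this; omega
      · exact h
      · have := pm i (by omega) j h; rw [e] at this; omega
    · by_cases e : i < k
      · rw [Nat.mod_eq_of_lt (by omega)]
        simp only [s, e, if_true]; exact (ps i e).2.1
      · have : i = k := by omega
        subst this
        simp only [s, e, if_false, Nat.mod_self, p0, pk]; exact ht
  have hodd : IsOdd (k + 1) s := by
    unfold IsOdd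
    have h1 := par (fun i => x (p i)) k
    have h2 : (range k).filter (fun i => s i = true) =
        (range k).filter (fun i => xor (x (p i)) (x (p (i + 1))) = true) := by
      apply filter_congr
      intro i hi
      simp only [s, mem_range.1 hi, if_true]
    simp only [p0, pk, hx0, hst] at h1
    rw [range_add_one, filter_insert, Nat.odd_iff]
    have h3 : s k = st := by simp [s]
    rw [h3, h2]
    cases st
    · simpa using h1
    · rw [if_pos rfl, card_insert_of_notMem (by simp)]
      simp only [Bool.not_true, Bool.xor_false, Bool.false_eq_true, iff_false] at h1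
      omega
  obtain ⟨i, hi, j, hj, l, hl, _, e1, e2, n1, n2⟩ :=
    hC _ _ _ hcyc hodd (fun i hi => inR _ _ (rk1 _ (pb i (by omega))))
  have key : ∀ q < k + 1, E (p i) (p q) (x (p i)) →
      (¬ ∃ m < k + 1, p m = p i ∧ p ((m + 1) % (k + 1)) = p q ∧ s m = x (p i)) → False := by
    intro q hq he hn
    have hqw : p q ≠ w := by
      intro e
      rw [e] at he
      have := hFw _ _ he
      simp at this
    have hqb := pb q (by omega)
    have hq0 : x (p q) = false := by
      by_contra h
      have := (hfix _ (inR _ _ (rk1 _ hqb)) hqw).1 (by simpa using h) _ _ he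
      simp at this
    have hs := viol _ _ hqb hqw hq0 he
    have hiq : i < q := by
      by_contra h
      rcases Nat.lt_or_eq_of_le (not_lt.1 h) with h | h
      · have := pm i (by omega) q h
        have := hs.2.2
        omega
      · have := hs.2.2
        rw [h] at this; omega
    by_cases e : q = i + 1
    · apply hn
      refine ⟨i, hi, rfl, by rw [Nat.mod_eq_of_lt (by omega), e], ?_⟩
      have : i < k := by omega
      simp only [s, this, if_true, ← e, hq0, Bool.xor_false]
    · apply hmin (k - (q - i - 1)) (by omega)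
      refine ⟨fun m => if m ≤ i then p m else p (m + (q - i - 1)), by simp [p0], ?_, fun m hm => ?_⟩
      · have : ¬ (k - (q - i - 1) ≤ i) := by omega
        simp only [this, if_false]
        rw [← pk]; congr 1; omega
      · rcases lt_trichotomy m i with h | h | h
        · simp only [h.le, if_true, show m + 1 ≤ i from h]; exact ps m (by omega)
        · subst h
          simp only [le_refl, if_true, show ¬ (m + 1 ≤ m) by omega, if_false]
          rw [show m + 1 + (q - m - 1) = q by omega]; exact hs
        · simp only [show ¬ (m ≤ i) by omega, show ¬ (m + 1 ≤ i) by omega, if_false]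
          rw [show m + 1 + (q - i - 1) = m + (q - i - 1) + 1 by omega]
          exact ps _ (by omega)
  cases e : x (p i)
  · rw [e] at key; exact key j hj e1 n1
  · rw [e] at key; exact key l hl e2 n2

lemma fixed [Finite A] : ∀ (n : ℕ) (R : Finset A), R.card = n →
    (∀ k c s, IsCycle E k c s → IsOdd k s → (∀ i < k, c i ∈ R) → HasTriple E k c s) →
    ∀ b : A → Bool, ∃ x : A → Bool, (∀ v ∉ R, x v = b v) ∧ ∀ v ∈ R, (x v = true ↔ F E v x) := by
  classical
  intro n
  induction n using Nat.strong_induction_on with
  | _ n ih =>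
    intro R hR hC b
    rcases R.eq_empty_or_nonempty with rfl | ⟨w, hw⟩
    · exact ⟨b, fun _ _ => rfl, by simp⟩
    obtain ⟨x, x1, x2⟩ := ih _ (hR ▸ card_erase_lt_of_mem hw) (R.erase w) rfl
      (fun k c s h1 h2 h3 => hC k c s h1 h2 fun i hi => mem_of_mem_erase (h3 i hi))
      (Function.update b w false)
    have hx0 : x w = false := by simpa using x1 w (notMem_erase w R)
    have hxb : ∀ v ∉ R, x v = b v := by
      intro v hv
      rw [x1 v (fun h => hv (mem_of_mem_erase h)), Function.update_of_ne]
      rintro rfl; exact hv hw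
    have hfix : ∀ v ∈ R, v ≠ w → (x v = true ↔ F E v x) :=
      fun v hv h => x2 v (mem_erase.2 ⟨h, hv⟩)
    by_cases hF : F E w x
    swap
    · refine ⟨x, hxb, fun v hv => ?_⟩
      by_cases e : v = w
      · subst e; simp [hx0, hF]
      · exact hfix v hv e
    have nb := no_back E R w hw x hx0 hF hfix hC
    let R' := (R.erase w).filter (fun v => ∃ n, v ∈ Lev E R w x n)
    have hsub : R' ⊆ R.erase w := filter_subset _ _
    obtain ⟨z, z1, z2⟩ := ih _ (hR ▸ lt_of_le_of_lt (card_le_card hsub) (card_erase_lt_of_mem hw))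
      R' rfl (fun k c s h1 h2 h3 => hC k c s h1 h2 fun i hi => mem_of_mem_erase (hsub (h3 i hi)))
      (Function.update x w true)
    have hz : ∀ u, (∀ n, u ∉ Lev E R w x n) → z u = x u := by
      intro u hu
      rw [z1 u (fun h => by obtain ⟨n, hn⟩ := (mem_filter.1 h).2; exact hu n hn),
        Function.update_of_ne]
      rintro rfl; exact hu 0 rfl
    refine ⟨z, fun v hv => ?_, fun v hv => ?_⟩
    · rw [z1 v (fun h => hv (mem_of_mem_erase (hsub h))), Function.update_of_ne, hxb v hv]
      rintro rfl; exact hv hw
    by_cases e : v = w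
    · subst e
      have : z v = true := by simpa using z1 v (fun h => notMem_erase v R (hsub h))
      refine iff_of_true this fun u s he => ?_
      rw [hz u (nb u s he)]; exact hF u s he
    by_cases hb : v ∈ R'
    · exact z2 v hb
    have hnb : ∀ n, v ∉ Lev E R w x n := fun n h =>
      hb (mem_filter.2 ⟨mem_erase.2 ⟨e, hv⟩, n, h⟩)
    rw [hz v hnb]
    cases hxv : x v
    · refine iff_of_false (by simp) fun hFz => ?_
      have h1 : ∀ u, ∃ n, E u v (x u) → u ∈ Lev E R w x n := by
        intro u
        by_contra hc
        push Not at hc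
        have h2 := hz u (fun n => (hc n).2)
        have h3 := hFz u _ (hc 0).1
        rw [h2] at h3
        simp at h3
      choose g hg using h1
      obtain ⟨N, hN⟩ := (Set.finite_range g).bddAbove
      exact hnb (N + 1) (Or.inr ⟨hv, Or.inr ⟨hxv, fun u hu =>
        lev_mono E R w x (hN ⟨u, rfl⟩) (hg u hu)⟩⟩)
    · refine iff_of_true rfl fun u s he => ?_
      rw [hz u (fun n h => hnb (n + 1) (Or.inr ⟨hv, Or.inl ⟨hxv, u, s, he, h⟩⟩))]
      exact (hfix v hv e).1 hxv u s he

end net

inductive Der (P : Set (Rule A)) : A → Prop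
  | rule (r : Rule A) : r ∈ P → (∀ u ∈ r.pos, Der P u) → Der P r.head

theorem result (A : Type) [Fintype A] (P : Set (Rule A)) (hU : UniRule P)
    (hC : ∀ k c s, IsCycle (Arc P) k c s → IsOdd k s → HasTriple (Arc P) k c s) :
    ∃ M : Set A, IsStable P M := by
  classical
  obtain ⟨x, x1, x2⟩ := fixed (Arc P) _ (univ.filter (Der P)) rfl
    (fun k c s h1 h2 _ => hC k c s h1 h2) (fun _ => false)
  have hD : ∀ v, x v = true → Der P v := by
    intro v hv
    by_contra h
    rw [x1 v (by simpa using h)] at hv
    simp at hv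
  refine ⟨{v | x v = true}, fun r hr h1 h2 => ?_, fun L hL v hv => ?_⟩
  · refine (x2 _ (by simpa using Der.rule r hr fun u hu => hD u (h2 hu))).2 ?_
    rintro u s ⟨r', hr', e, hu⟩
    rw [hU r' hr' r hr e] at hu
    cases s
    · exact h2 hu
    · have : u ∉ {v | x v = true} := Set.disjoint_left.1 h1 hu
      simpa using this
  · have hd := hD v hv
    induction hd with
    | rule r hr hp ih =>
      have hF := (x2 _ (by simpa using Der.rule r hr hp)).1 hv
      refine hL r hr (Set.disjoint_left.2 fun u hu h => ?_) fun u hu => ?_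
      · have := hF u true ⟨r, hr, rfl, hu⟩
        rw [show x u = true from h] at this
        simp at this
      · exact ih u hu (hF u false ⟨r, hr, rfl, hu⟩)

end Pool.Agent.Results.MP_d24a2a_lc.Stable
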